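import Pool.Agent.Lib.MP_89fcdb_gt.Interfaces

/-!
# MP_89fcdb_gt: module CRP, the Lusternik-Schnirelmann category of `RP³` is at most 3
-/

open Set Topology

namespace Pool.Agent.Lib.MP_89fcdb_gt.H99

noncomputable section

/-- The euclidean norm on `ℂ²`. -/
def nn (p : ℂ × ℂ) : ℝ := Real.sqrt (Complex.normSq p.1 + Complex.normSq p.2)

theorem nn_continuous : Continuous nn := by
  unfold nn
  have h1 : Continuous fun p : ℂ × ℂ => Complex.normSq p.1 :=
    Complex.continuous_normSq.comp continuous_fst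
  have h2 : Continuous fun p : ℂ × ℂ => Complex.normSq p.2 :=
    Complex.continuous_normSq.comp continuous_snd
  exact Real.continuous_sqrt.comp (h1.add h2)

theorem nn_pos {p : ℂ × ℂ} (hp : p ≠ 0) : 0 < nn p := by
  unfold nn
  apply Real.sqrt_pos.mpr
  by_contra h
  have h1 := Complex.normSq_nonneg p.1
  have h2 := Complex.normSq_nonneg p.2
  have h3 : Complex.normSq p.1 = 0 := by linarith
  have h4 : Complex.normSq p.2 = 0 := by linarith
  exact hp (Prod.ext (Complex.normSq_eq_zero.mp h3) (Complex.normSq_eq_zero.mp h4))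

theorem nn_neg (p : ℂ × ℂ) : nn (-p) = nn p := by
  simp [nn]

theorem nn_sq (p : ℂ × ℂ) : nn p ^ 2 = Complex.normSq p.1 + Complex.normSq p.2 :=
  Real.sq_sqrt (add_nonneg (Complex.normSq_nonneg _) (Complex.normSq_nonneg _))

theorem nn_smul (a : ℝ) (p : ℂ × ℂ) : nn (a • p) = |a| * nn p := by
  unfold nn
  have h : Complex.normSq (a • p).1 + Complex.normSq (a • p).2 =
      a ^ 2 * (Complex.normSq p.1 + Complex.normSq p.2) := by
    simp only [Prod.smul_fst, Prod.smul_snd, Complex.real_smul, Complex.normSq_mul,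
      Complex.normSq_ofReal]
    ring
  rw [h, Real.sqrt_mul (sq_nonneg a), Real.sqrt_sq_eq_abs]

/-- Normalisation of a non-zero vector. -/
def nrm (p : ℂ × ℂ) (hp : p ≠ 0) : S3 := ⟨(nn p)⁻¹ • p, by
  have h := nn_pos hp
  have h1 : nn ((nn p)⁻¹ • p) = 1 := by
    rw [nn_smul, abs_of_pos (inv_pos.mpr h), inv_mul_cancel₀ h.ne']
  have h2 := nn_sq ((nn p)⁻¹ • p)
  rw [h1] at h2
  linarith⟩

theorem nrm_neg (p : ℂ × ℂ) (hp : p ≠ 0) (hp' : -p ≠ 0) : nrm (-p) hp' = TS3.τ (nrm p hp) := by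
  apply Subtype.ext
  show (nn (-p))⁻¹ • (-p) = -((nn p)⁻¹ • p)
  rw [nn_neg, smul_neg]

theorem proj_neg (q : S3) : TS3.proj (TS3.τ q) = TS3.proj q :=
  Quotient.sound (Or.inr (TS3.sq q).symm)

theorem proj_eq_iff (q q' : S3) : TS3.proj q = TS3.proj q' ↔ q' = q ∨ q' = TS3.τ q := by
  constructor
  · intro h
    exact Quotient.exact h
  · intro h
    exact Quotient.sound h

theorem isOpenMap_proj : IsOpenMap TS3.proj := by
  intro U hU
  have hq : IsQuotientMap (TS3.proj : S3 → RP3) := isQuotientMap_quotient_mk'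
  rw [← hq.isOpen_preimage]
  have h : TS3.proj ⁻¹' (TS3.proj '' U) = U ∪ TS3.τ ⁻¹' U := by
    ext q
    constructor
    · rintro ⟨q', h1, h2⟩
      rcases (proj_eq_iff q' q).mp h2 with h3 | h3
      · left; rw [h3]; exact h1
      · right
        show TS3.τ q ∈ U
        rw [h3, TS3.sq]; exact h1
    · rintro (h1 | h1)
      · exact ⟨q, h1, rfl⟩
      · exact ⟨TS3.τ q, h1, proj_neg q⟩
  rw [h]
  exact hU.union (hU.preimage TS3.τ.continuous)

/-- The standard open set of `RP³` given by a real linear coordinate. -/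
def Uc (c : ℂ × ℂ →L[ℝ] ℝ) : Set RP3 := TS3.proj '' {q : S3 | c q.1 ≠ 0}

theorem mem_Uc (c : ℂ × ℂ →L[ℝ] ℝ) (q : S3) : TS3.proj q ∈ Uc c ↔ c q.1 ≠ 0 := by
  constructor
  · rintro ⟨q', h1, h2⟩
    rcases (proj_eq_iff q' q).mp h2 with h3 | h3
    · rw [h3]; exact h1
    · rw [h3]
      show c (-q'.1) ≠ 0
      rw [map_neg]
      exact neg_ne_zero.mpr h1
  · intro h
    exact ⟨q, h, rfl⟩

theorem isOpen_Uc (c : ℂ × ℂ →L[ℝ] ℝ) : IsOpen (Uc c) := by
  apply isOpenMap_proj
  have : Continuous fun q : S3 => c q.1 := c.continuous.comp continuous_subtype_val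
  exact isOpen_ne.preimage this

/-- The vector moving along the homotopy. -/
def mv (c : ℂ × ℂ →L[ℝ] ℝ) (e : ℂ × ℂ) (t : ℝ) (p : ℂ × ℂ) : ℂ × ℂ :=
  (1 - t) • p + (t * c p) • e

theorem mv_ne (c : ℂ × ℂ →L[ℝ] ℝ) (e : ℂ × ℂ) (he : c e = 1) (t : ℝ) (p : ℂ × ℂ)
    (hp : c p ≠ 0) : mv c e t p ≠ 0 := by
  intro h
  have h1 : c (mv c e t p) = 0 := by rw [h, map_zero]
  unfold mv at h1
  rw [map_add, map_smul, map_smul, he] at h1
  simp only [smul_eq_mul, mul_one] at h1
  apply hp
  linarith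

theorem mv_neg (c : ℂ × ℂ →L[ℝ] ℝ) (e : ℂ × ℂ) (t : ℝ) (p : ℂ × ℂ) :
    mv c e t (-p) = -mv c e t p := by
  unfold mv
  rw [map_neg, smul_neg, mul_neg, neg_smul, neg_add]

theorem contractibleIn_Uc (c : ℂ × ℂ →L[ℝ] ℝ) (e : S3) (he : c e.1 = 1) :
    ContractibleIn (Uc c) := by
  -- the part of the sphere over `Uc c`
  let X : Type := {q : S3 // c q.1 ≠ 0}
  let π : X → Uc c := fun q => ⟨TS3.proj q.1, (mem_Uc c q.1).mpr q.2⟩
  have hπc : Continuous π := by
    apply Continuous.subtype_mk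
    exact TS3.proj.continuous.comp continuous_subtype_val
  have hπs : Function.Surjective π := by
    rintro ⟨x, q, h1, h2⟩
    exact ⟨⟨q, h1⟩, Subtype.ext h2⟩
  have hXo : IsOpen {q : S3 | c q.1 ≠ 0} := by
    have : Continuous fun q : S3 => c q.1 := c.continuous.comp continuous_subtype_val
    exact isOpen_ne.preimage this
  have hπo : IsOpenMap π := by
    intro V hV
    have h1 : IsOpen (Subtype.val '' V : Set S3) := hXo.isOpenMap_subtype_val V hV
    have h2 : IsOpen (TS3.proj '' (Subtype.val '' V : Set S3)) := isOpenMap_proj _ h1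
    have h3 : π '' V = Subtype.val ⁻¹' (TS3.proj '' (Subtype.val '' V : Set S3)) := by
      ext x
      constructor
      · rintro ⟨q, h4, rfl⟩
        exact ⟨q.1, ⟨q, h4, rfl⟩, rfl⟩
      · rintro ⟨_, ⟨q, h4, rfl⟩, h5⟩
        exact ⟨q, h4, Subtype.ext h5⟩
    rw [h3]
    exact h2.preimage continuous_subtype_val
  have hq : IsOpenQuotientMap π := ⟨hπs, hπc, hπo⟩
  have hq2 : IsOpenQuotientMap (Prod.map (id : unitInterval → unitInterval) π) :=
    (IsOpenQuotientMap.id).prodMap hq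
  let G : unitInterval × X → RP3 := fun p =>
    TS3.proj (nrm (mv c e.1 (p.1 : ℝ) p.2.1.1) (mv_ne c e.1 he _ _ p.2.2))
  have hG : Continuous G := by
    apply TS3.proj.continuous.comp
    apply Continuous.subtype_mk
    have h1 : Continuous fun p : unitInterval × X => mv c e.1 (p.1 : ℝ) p.2.1.1 := by
      unfold mv
      have ht : Continuous fun p : unitInterval × X => (p.1 : ℝ) :=
        continuous_subtype_val.comp continuous_fst
      have hp : Continuous fun p : unitInterval × X => p.2.1.1 :=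
        continuous_subtype_val.comp (continuous_subtype_val.comp continuous_snd)
      have hcp : Continuous fun p : unitInterval × X => c p.2.1.1 := c.continuous.comp hp
      exact ((continuous_const.sub ht).smul hp).add ((ht.mul hcp).smul continuous_const)
    exact ((nn_continuous.comp h1).inv₀ fun p =>
      (nn_pos (mv_ne c e.1 he _ _ p.2.2)).ne').smul h1
  have hGk : ∀ p p' : unitInterval × X, Prod.map (id : unitInterval → unitInterval) π p =
      Prod.map (id : unitInterval → unitInterval) π p' → G p = G p' := by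
    rintro ⟨t, q⟩ ⟨t', q'⟩ h
    have h1 : t = t' := congrArg Prod.fst h
    have h2 : π q = π q' := congrArg Prod.snd h
    have h3 : TS3.proj q.1 = TS3.proj q'.1 := congrArg Subtype.val h2
    subst h1
    rcases (proj_eq_iff q.1 q'.1).mp h3 with h4 | h4
    · have : q' = q := Subtype.ext h4
      rw [this]
    · have h5 : q'.1.1 = -q.1.1 := congrArg Subtype.val h4
      show TS3.proj _ = TS3.proj _
      rw [← proj_neg (nrm (mv c e.1 (t : ℝ) q.1.1) (mv_ne c e.1 he _ _ q.2))]
      congr 1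
      apply Subtype.ext
      show -((nn (mv c e.1 (t : ℝ) q.1.1))⁻¹ • mv c e.1 (t : ℝ) q.1.1) =
        (nn (mv c e.1 (t : ℝ) q'.1.1))⁻¹ • mv c e.1 (t : ℝ) q'.1.1
      rw [h5, mv_neg, nn_neg, smul_neg]
  let F0 : unitInterval × Uc c → RP3 := fun p => G (p.1, (hπs p.2).choose)
  have hF0 : ∀ t q, F0 (t, π q) = G (t, q) := by
    intro t q
    apply hGk
    exact Prod.ext rfl (hπs (π q)).choose_spec
  have hF0c : Continuous F0 := by
    rw [hq2.isQuotientMap.continuous_iff]
    have : F0 ∘ Prod.map (id : unitInterval → unitInterval) π = G := by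
      funext p
      exact hF0 p.1 p.2
    rw [this]
    exact hG
  let F : C(unitInterval × Uc c, RP3) := ⟨F0, hF0c⟩
  have hF : ∀ t q, F (t, π q) = G (t, q) := hF0
  refine ⟨TS3.proj e, ⟨{ toContinuousMap := F, map_zero_left := ?_, map_one_left := ?_ }⟩⟩
  · intro x
    obtain ⟨q, rfl⟩ := hπs x
    show F (0, π q) = TS3.proj q.1
    rw [hF]
    show TS3.proj _ = TS3.proj _
    congr 1
    apply Subtype.ext
    show (nn (mv c e.1 ((0 : unitInterval) : ℝ) q.1.1))⁻¹ •
      mv c e.1 ((0 : unitInterval) : ℝ) q.1.1 = q.1.1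
    have h1 : mv c e.1 ((0 : unitInterval) : ℝ) q.1.1 = q.1.1 := by
      simp [mv]
    have h2 : nn q.1.1 = 1 := by
      unfold nn
      rw [q.1.2, Real.sqrt_one]
    rw [h1, h2, inv_one, one_smul]
  · intro x
    obtain ⟨q, rfl⟩ := hπs x
    show F (1, π q) = TS3.proj e
    rw [hF]
    have h1 : mv c e.1 ((1 : unitInterval) : ℝ) q.1.1 = c q.1.1 • e.1 := by
      simp [mv]
    have h2 : nn e.1 = 1 := by
      unfold nn
      rw [e.2, Real.sqrt_one]
    have h3 : (nn (c q.1.1 • e.1))⁻¹ • (c q.1.1 • e.1) = (|c q.1.1|⁻¹ * c q.1.1) • e.1 := by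
      rw [nn_smul, h2, mul_one, smul_smul]
    rcases lt_or_gt_of_ne q.2 with h | h
    · have h4 : |c q.1.1|⁻¹ * c q.1.1 = -1 := by
        rw [abs_of_neg h, inv_neg, neg_mul, inv_mul_cancel₀ h.ne]
      rw [← proj_neg e]
      show TS3.proj _ = TS3.proj _
      congr 1
      apply Subtype.ext
      show (nn (mv c e.1 ((1 : unitInterval) : ℝ) q.1.1))⁻¹ •
        mv c e.1 ((1 : unitInterval) : ℝ) q.1.1 = -e.1
      rw [h1, h3, h4, neg_one_smul]
    · have h4 : |c q.1.1|⁻¹ * c q.1.1 = 1 := by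
        rw [abs_of_pos h, inv_mul_cancel₀ h.ne']
      show TS3.proj _ = TS3.proj _
      congr 1
      apply Subtype.ext
      show (nn (mv c e.1 ((1 : unitInterval) : ℝ) q.1.1))⁻¹ •
        mv c e.1 ((1 : unitInterval) : ℝ) q.1.1 = e.1
      rw [h1, h3, h4, one_smul]

/-- The four real coordinates. -/
def crd : Fin 4 → (ℂ × ℂ →L[ℝ] ℝ) :=
  ![Complex.reCLM.comp (ContinuousLinearMap.fst ℝ ℂ ℂ),
    Complex.imCLM.comp (ContinuousLinearMap.fst ℝ ℂ ℂ),
    Complex.reCLM.comp (ContinuousLinearMap.snd ℝ ℂ ℂ),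
    Complex.imCLM.comp (ContinuousLinearMap.snd ℝ ℂ ℂ)]

/-- **Module CRP**: `RP³` has category at most `3`. -/
theorem catRP : CatRPStatement := by
  refine ⟨fun i => Uc (crd i), fun i => isOpen_Uc _, fun i => ?_, ?_⟩
  · fin_cases i
    · exact contractibleIn_Uc (crd 0) ⟨(1, 0), by simp⟩ (by simp [crd])
    · exact contractibleIn_Uc (crd 1) ⟨(Complex.I, 0), by simp⟩ (by simp [crd])
    · exact contractibleIn_Uc (crd 2) ⟨(0, 1), by simp⟩ (by simp [crd])
    · exact contractibleIn_Uc (crd 3) ⟨(0, Complex.I), by simp⟩ (by simp [crd])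
  · rw [Set.eq_univ_iff_forall]
    intro x
    induction x using Quotient.inductionOn with
    | h q =>
      by_contra h
      rw [Set.mem_iUnion] at h
      push Not at h
      have h' : ∀ i, crd i q.1 = 0 := by
        intro i
        by_contra hi
        exact h i ((mem_Uc (crd i) q).mpr hi)
      have h0 : q.1.1.re = 0 := by simpa [crd] using h' 0
      have h1 : q.1.1.im = 0 := by simpa [crd] using h' 1
      have h2 : q.1.2.re = 0 := by simpa [crd] using h' 2
      have h3 : q.1.2.im = 0 := by simpa [crd] using h' 3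
      have h4 := q.2
      rw [Complex.normSq_apply, Complex.normSq_apply, h0, h1, h2, h3] at h4
      norm_num at h4

end

end Pool.Agent.Lib.MP_89fcdb_gt.H99
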